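import Pool.Agent.Run7.h987.SE.Iface

/-! # Finite groups are amenable -/

set_option autoImplicit false

open MeasureTheory Set

noncomputable section

namespace Pool.Agent.Run7.h987.SE

theorem t_INF : P_INF := by
  intro Γ _ hΓ
  by_contra hfin
  rw [not_infinite_iff_finite] at hfin
  apply hΓ
  refine ⟨fun A => (A.ncard : ℝ) / Nat.card Γ, fun A => by positivity, ?_, ?_, ?_⟩
  · have : (0 : ℝ) < Nat.card Γ := by exact_mod_cast Nat.card_pos
    simp only [Set.ncard_univ]
    exact div_self this.ne'
  · intro A B hAB
    have := Set.ncard_union_eq hAB (Set.toFinite A) (Set.toFinite B)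
    simp only [this]
    push_cast
    ring
  · intro g A
    have : ((fun h => g * h) '' A).ncard = A.ncard :=
      Set.ncard_image_of_injective A (mul_right_injective g)
    simp only [this]

end Pool.Agent.Run7.h987.SE
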