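import Pool.Agent.Run7.h987.SE.Fin
import Pool.Agent.Run7.h987.SE.Inf
import Pool.Agent.Run7.h270.SE.OSM
import Pool.Agent.Run7.h313.SE.CARD
import Pool.Agent.Run7.h313.SE.DENS
import Pool.Agent.Run7.h370.SE.ACT
import Pool.Agent.Run7.h417.SE.ISO
import Pool.Agent.Run7.h417.SE.SERG
import Pool.Agent.Run7.h417.SE.WC
import Pool.Agent.Run7.h554.SE.Core

/-! # Assembly -/

set_option autoImplicit false

namespace Pool.Agent.Run7.h987.SE

theorem t_SERG : P_SERG :=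
  Run7.h417.SE.t_SERG Pool.Agent.Run7.h270.SE.t_ORTH Pool.Agent.Run7.h270.SE.t_SHIFT
    Run7.h313.SE.t_DENS Run7.h554.SE.t_CORE

theorem t_ACT : P_ACT :=
  Run7.h370.SE.t_ACT Pool.Agent.Run7.h270.SE.t_SHIFT (Pool.Agent.Run7.h270.SE.t_MIX t_SERG)
    Run7.h417.SE.t_ISO t_INF

end Pool.Agent.Run7.h987.SE
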