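import Pool.Agent.Run7.h987.SE.Iface

/-! # Width of the free actions: end game -/

set_option autoImplicit false

open MeasureTheory Set Cardinal
open scoped ENNReal symmDiff

noncomputable section

namespace Pool.Agent.Run7.h987.SE

/-- antichains of free actions: any two distinct members are incomparable -/
def IsFreeAntichain {Γ : Type} [Group Γ] {X : Type} [MeasurableSpace X] {μ : Measure X}
    (S : Set (PMPAction Γ X μ)) : Prop :=
  (∀ a ∈ S, IsFree a) ∧
    ∀ a ∈ S, ∀ b ∈ S, a ≠ b → ¬ WeaklyContained a b ∧ ¬ WeaklyContained b a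

/-- the width of the class of free actions -/
def width (Γ : Type) [Group Γ] (X : Type) [MeasurableSpace X] (μ : Measure X) : Cardinal.{0} :=
  ⨆ S : {S : Set (PMPAction Γ X μ) // IsFreeAntichain S}, #S.1

theorem width_eq (hA : P_ACT) (hW : P_WC) (hC : P_CARD) (Γ : Type) [Group Γ] [Countable Γ]
    (hΓ : ¬ Amenable Γ) (X : Type) [MeasurableSpace X] [StandardBorelSpace X] (μ : Measure X)
    [IsProbabilityMeasure μ] (hμ : ∀ x, μ {x} = 0) :
    width Γ X μ = 𝔠 ∧ ∃ S : Set (PMPAction Γ X μ), IsFreeAntichain S ∧ #S = 𝔠 := by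
  have h1 : ∀ t : Ioo (0 : ℝ) (1 / 2), ∃ a : PMPAction Γ X μ, IsFree a ∧ Sp a t ∧
      ∀ r, Sp a r → r = 0 ∨ r = t ∨ r = 1 - t ∨ r = 1 :=
    fun t => hA Γ hΓ X μ hμ t t.2.1 t.2.2
  choose a ha1 ha2 ha3 using h1
  have hne : ∀ s t : Ioo (0 : ℝ) (1 / 2), Sp (a s) t → t = s := by
    intro s t h
    have hs := s.2
    have ht := t.2
    rcases ha3 s t h with h | h | h | h
    · exfalso
      linarith [ht.1]
    · exact Subtype.ext h
    · exfalso
      linarith [ht.1, ht.2, hs.1, hs.2]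
    · exfalso
      linarith [ht.1, ht.2]
  have hinj : Function.Injective a := by
    intro s t h
    exact (hne t s (h ▸ ha2 s))
  have hinc : ∀ s t : Ioo (0 : ℝ) (1 / 2), s ≠ t → ¬ WeaklyContained (a s) (a t) := by
    intro s t hst h
    exact hst (hne t s (hW Γ X μ (a t) (a s) h s (ha2 s)))
  have hanti : IsFreeAntichain (Set.range a) := by
    refine ⟨?_, ?_⟩
    · rintro _ ⟨t, rfl⟩
      exact ha1 t
    · rintro _ ⟨s, rfl⟩ _ ⟨t, rfl⟩ hst
      have hst' : s ≠ t := fun h => hst (by rw [h])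
      exact ⟨hinc s t hst', hinc t s hst'.symm⟩
  have hcard : #(Set.range a) = 𝔠 := by
    rw [Cardinal.mk_range_eq a hinj]
    exact Cardinal.mk_Ioo_real (by norm_num)
  have hbdd : BddAbove (Set.range fun S : {S : Set (PMPAction Γ X μ) // IsFreeAntichain S} => #S.1) :=
    Cardinal.bddAbove_range _
  refine ⟨le_antisymm ?_ ?_, Set.range a, hanti, hcard⟩
  · exact ciSup_le' fun S => (Cardinal.mk_set_le S.1).trans (hC Γ X μ)
  · rw [← hcard]
    exact le_ciSup hbdd (⟨Set.range a, hanti⟩ : {S : Set (PMPAction Γ X μ) // IsFreeAntichain S})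

end Pool.Agent.Run7.h987.SE
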