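import Mathlib

/-!
# A continuum antichain of free pmp actions of every nonamenable group (MP_651bcb_an)

Idea: `s` = Bernoulli shift over `{0,1}`, strongly ergodic because `Γ` is nonamenable.  The convex
combinations `a_t = t·s ⊕ (1-t)·s`, `0 < t < 1/2`, are pairwise incomparable for weak containment:
the masses of almost invariant sets of `a_t` accumulate only at `0, t, 1-t, 1`.

Every piece is a closed Prop; theorem `t_XXX : P_XXX` (or with the listed pieces as hypotheses).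
-/

set_option autoImplicit false

open MeasureTheory Set
open scoped ENNReal symmDiff

noncomputable section

namespace Pool.Agent.Run7.h987.SE

/-- `Γ` is amenable: there is a finitely additive left invariant probability measure on all
subsets -/
def Amenable (Γ : Type) [Group Γ] : Prop :=
  ∃ m : Set Γ → ℝ, (∀ A, 0 ≤ m A) ∧ m univ = 1 ∧
    (∀ A B, Disjoint A B → m (A ∪ B) = m A + m B) ∧
    ∀ (g : Γ) (A : Set Γ), m ((fun h => g * h) '' A) = m A

/-- a probability measure preserving action of `Γ` on `(X, μ)` -/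
@[ext] structure PMPAction (Γ : Type) [Group Γ] (X : Type) [MeasurableSpace X] (μ : Measure X) where
  act : Γ → X → X
  act_one : ∀ x, act 1 x = x
  act_mul : ∀ g h x, act (g * h) x = act g (act h x)
  meas : ∀ g, Measurable (act g)
  pres : ∀ g, μ.map (act g) = μ

/-- `γ x ≠ x` for all `γ ≠ 1` and almost all `x` -/
def IsFree {Γ : Type} [Group Γ] {X : Type} [MeasurableSpace X] {μ : Measure X}
    (a : PMPAction Γ X μ) : Prop :=
  ∀ g : Γ, g ≠ 1 → ∀ᵐ x ∂μ, a.act g x ≠ x

/-- weak containment `b ≼ a` -/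
def WeaklyContained {Γ : Type} [Group Γ] {X : Type} [MeasurableSpace X] {μ : Measure X}
    (b a : PMPAction Γ X μ) : Prop :=
  ∀ (F : Finset Γ) (ε : ℝ), 0 < ε → ∀ (n : ℕ) (A : Fin n → Set X), (∀ i, MeasurableSet (A i)) →
    ∃ B : Fin n → Set X, (∀ i, MeasurableSet (B i)) ∧ ∀ γ ∈ F, ∀ i j,
      |μ.real (b.act γ '' A i ∩ A j) - μ.real (a.act γ '' B i ∩ B j)| < ε

/-- `r` is a limit of masses of almost invariant sets -/
def Sp {Γ : Type} [Group Γ] {X : Type} [MeasurableSpace X] {μ : Measure X}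
    (a : PMPAction Γ X μ) (r : ℝ) : Prop :=
  ∀ (F : Finset Γ) (δ : ℝ), 0 < δ → ∃ B : Set X, MeasurableSet B ∧ |μ.real B - r| < δ ∧
    ∀ γ ∈ F, μ.real ((a.act γ '' B) ∆ B) < δ

/-- biased coin -/
def bern (t : ℝ) : Measure Bool :=
  ENNReal.ofReal t • Measure.dirac true + ENNReal.ofReal (1 - t) • Measure.dirac false

instance bern_prob (t : Icc (0 : ℝ) 1) : IsProbabilityMeasure (bern t) := by
  constructor
  simp only [bern, Measure.coe_add, Measure.coe_smul, Pi.add_apply, Pi.smul_apply,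
    measure_univ, smul_eq_mul, mul_one]
  rw [← ENNReal.ofReal_add t.2.1 (by linarith [t.2.2])]
  simp

instance half_prob : IsProbabilityMeasure (bern (1 / 2)) :=
  bern_prob ⟨1 / 2, by norm_num, by norm_num⟩

/-- the fair coin measure on `{0,1}^Γ` -/
def nu (Γ : Type) : Measure (Γ → Bool) := Measure.infinitePi fun _ : Γ => bern (1 / 2)

instance (Γ : Type) : IsProbabilityMeasure (nu Γ) := by
  unfold nu
  infer_instance

/-- the Bernoulli shift `(γ x)(h) = x (γ⁻¹ h)` -/
def shift {Γ : Type} [Group Γ] (g : Γ) (x : Γ → Bool) : Γ → Bool := fun h => x (g⁻¹ * h)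

/-- the measure `(t δ_true + (1-t) δ_false) × ν` on two copies of the Bernoulli space -/
def mt (Γ : Type) (t : ℝ) : Measure (Bool × (Γ → Bool)) := (bern t).prod (nu Γ)

/-- the shift on two copies -/
def shift2 {Γ : Type} [Group Γ] (g : Γ) (z : Bool × (Γ → Bool)) : Bool × (Γ → Bool) :=
  (z.1, shift g z.2)

/-- Walsh functions `w_S(x) = ∏_{s ∈ S} ε(x s)`, `ε(true) = 1`, `ε(false) = -1` -/
def walsh {Γ : Type} (S : Finset Γ) (x : Γ → Bool) : ℝ := ∏ s ∈ S, if x s then 1 else -1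

/-- the Walsh polynomial with coefficients `c` -/
def wpoly {Γ : Type} (c : Finset Γ →₀ ℝ) (x : Γ → Bool) : ℝ := c.sum fun S r => r * walsh S x

/-! ## Pieces -/

/-- **ORTH** (~60 lines, independent). `walsh` functions are measurable, bounded by `1` and
orthonormal. Proof: `walsh S x * walsh T x = walsh (S ∆ T) x` (signs square to `1`), and for
`U ≠ ∅` the integral of `walsh U` is `0`: by `integral_infinitePi_of_piFinset`/independence it is
the product of the integrals of the factors, each `1/2 - 1/2 = 0` (or: the involution flipping the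
coordinate `u ∈ U` preserves `nu` and changes the sign of `walsh U`). -/
def P_ORTH : Prop := ∀ (Γ : Type) [DecidableEq Γ] (S T : Finset Γ),
  Measurable (walsh S : (Γ → Bool) → ℝ) ∧ (∀ x : Γ → Bool, |walsh S x| ≤ 1) ∧
    ∫ x, walsh S x * walsh T x ∂(nu Γ) = if S = T then 1 else 0

/-- **SHIFT** (~60 lines, independent). The shift preserves `nu`; points are null if `Γ` is
infinite; the shift is a.e. free if `Γ` is infinite. Proof: `nu.map (shift g) = nu` by
`Measure.infinitePi_map_piCongrLeft` (permutation of the coordinates) or by uniqueness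
`eq_infinitePi`.  Null points: `nu {x} ≤ nu {y | y = x on s} = 2^{-#s}` (`infinitePi_pi`).  Freeness:
`shift g x = x` means `x (g⁻¹ h) = x h` for all `h`.  Choose greedily `h_0, h_1, …` such that the
sets `{h_i, g⁻¹ h_i}` (two elements each) are pairwise disjoint (`Γ` infinite: avoid the finitely
many `h_j, g⁻¹ h_j, g h_j`).  The event has probability `≤ 2^{-n}` for every `n`: sum over the
`2^n` choices of the common values `b_i` of `nu {x (h_i) = x (g⁻¹ h_i) = b_i for i < n} = 4^{-n}`. -/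
def P_SHIFT : Prop := ∀ (Γ : Type) [Group Γ],
  (∀ g : Γ, Measurable (shift g) ∧ (nu Γ).map (shift g) = nu Γ) ∧
  (Infinite Γ → (∀ x : Γ → Bool, nu Γ {x} = 0) ∧
    ∀ g : Γ, g ≠ 1 → ∀ᵐ x ∂(nu Γ), shift g x ≠ x)

/-- **DENS** (~100 lines, independent). Walsh polynomials are dense: indicators of measurable sets
are approximable in `L²`. Proof: the sets `B` with this property form a σ-algebra-like class
containing the measurable cylinders: the indicator of `{x : x = b on s}` is
`2^{-#s} ∏_{i∈s} (1 ± ε(x i))`, a Walsh polynomial; finite unions of such; π-λ (complements, countable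
disjoint unions by dominated convergence).  Or Stone-Weierstrass (Walsh polynomials are a subalgebra
separating the points of the compact space `Γ → Bool`) + density of `C(Y)` in `L²`
(`ContinuousMap.toLp_denseRange`); `Γ` countable so that the product σ-algebra is Borel. -/
def P_DENS : Prop := ∀ (Γ : Type) [Countable Γ] (B : Set (Γ → Bool)), MeasurableSet B →
  ∀ η : ℝ, 0 < η → ∃ c : Finset Γ →₀ ℝ,
    ∫ x, (B.indicator (fun _ => (1 : ℝ)) x - wpoly c x) ^ 2 ∂(nu Γ) < η

/-- **CORE** (~150 lines, independent). Nonamenability gives a spectral gap on finite subsets.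
Proof by contraposition: suppose for every finite `F` and `δ = 1/n` there is `c` with `c ∅ = 0`,
`∑ c(S)² = 1` (normalise; the negated inequality is strict so `c ≠ 0`) and
`∑_S (c(γS) - c(S))² < δ` for all `γ ∈ F`.  `q(g) = ∑_{S ∋ g} c(S)²/#S` is a finitely supported
probability on `Γ`.  `|∑_{g∈A} q(g) - ∑_{g∈γ⁻¹A} q(g)| ≤ ∑_g |q(γg) - q(g)| ≤
∑_S |c(γS)² - c(S)²| ≤ (∑(c(γS)-c(S))²)^{1/2} (∑(c(γS)+c(S))²)^{1/2} ≤ 2 √δ`
(`q(γ g) = ∑_{S∋g} c(γS)²/#S`).  Limit of `A ↦ q_{(F,n)}(A)` along an ultrafilter finer than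
`atTop` on `Finset Γ × ℕ`: a left invariant mean. Here `γS = S.image (γ * ·)`. -/
def P_CORE : Prop := ∀ (Γ : Type) [Group Γ] [DecidableEq Γ], ¬ Amenable Γ →
  ∃ (F : Finset Γ) (δ : ℝ), 0 < δ ∧ ∀ c : Finset Γ →₀ ℝ, c ∅ = 0 →
    ∃ γ ∈ F, δ * (∑ S ∈ c.support, c S ^ 2) ≤
      ∑ᶠ S : Finset Γ, (c (S.image fun h => γ * h) - c S) ^ 2

/-- **SERG** (uses `P_ORTH`, `P_SHIFT`, `P_DENS`, `P_CORE`, ~150 lines). Strong ergodicity of the
Bernoulli shift. Proof: `F, δ` from CORE; `p = ν B`, `v = 1_B - p`, `c` from DENS with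
`∫ (1_B - wpoly c)² < η`, `c₀ = c` with the coefficient of `∅` set to `0`, `f₀ = wpoly c₀`; as
`|c ∅ - p|² ≤ η` (Cauchy-Schwarz, `c ∅ = ∫ wpoly c`), `∫ (v - f₀)² ≤ 4η`.  ORTH: `∫ f₀² = ∑ c₀(S)²`,
and `f₀ ∘ shift γ⁻¹ = wpoly (c₀ translated)` (`walsh S (shift g⁻¹ x) = walsh (g S) x`), so
`∑_S (c₀(γS) - c₀(S))² = ∫ (f₀ ∘ shift γ^{±1} - f₀)² ≤ 3(2·4η + ν(γB ∆ B))` (measure preservation,
`(1_B ∘ shift γ⁻¹ - 1_B)² = 1_{γB ∆ B}`).  CORE: some `γ ∈ F` has
`δ ∫ f₀² ≤ 24η + 3 ν(γB ∆ B)` (replace `F` by `F ∪ F⁻¹` if convenient).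
`p(1-p) = ∫ v² ≤ 2∫f₀² + 8η`.  Letting `η → 0`: `p(1-p) ≤ (6/δ) max_γ ν(γB ∆ B)`. -/
def P_SERG : Prop := ∀ (Γ : Type) [Group Γ] [Countable Γ], ¬ Amenable Γ →
  ∃ (F : Finset Γ) (C : ℝ), 0 < C ∧ ∀ (B : Set (Γ → Bool)) (δ : ℝ), MeasurableSet B →
    (∀ γ ∈ F, (nu Γ).real ((shift γ '' B) ∆ B) ≤ δ) →
    (nu Γ).real B * (1 - (nu Γ).real B) ≤ C * δ

/-- **INF** (~30 lines, independent). Finite groups are amenable: `m A = #A / #Γ`. -/
def P_INF : Prop := ∀ (Γ : Type) [Group Γ], ¬ Amenable Γ → Infinite Γ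

/-- **MIX** (uses `P_SERG`, ~100 lines). Almost invariant sets of two copies. Proof:
`B = {true} × B₁ ∪ {false} × B₂`, `m(γB ∆ B) = t ν(γB₁ ∆ B₁) + (1-t) ν(γB₂ ∆ B₂)`, so
`ν(γB_i ∆ B_i) ≤ δ/t` (`t ≤ 1-t`), SERG: `p_i(1-p_i) ≤ Cδ/t`, so each `p_i` is within `2Cδ/t` of `0`
or `1` (`min(p,1-p) ≤ 2p(1-p)`), and `m(B) = t p₁ + (1-t) p₂` is within `2Cδ/t` of one of
`0, t, 1-t, 1`. -/
def P_MIX : Prop := ∀ (Γ : Type) [Group Γ] [Countable Γ], ¬ Amenable Γ → ∀ t : ℝ, 0 < t →
  t < 1 / 2 → ∃ (F : Finset Γ) (C : ℝ), 0 < C ∧ ∀ (B : Set (Bool × (Γ → Bool))) (δ : ℝ),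
    MeasurableSet B → (∀ γ ∈ F, (mt Γ t).real ((shift2 γ '' B) ∆ B) ≤ δ) →
    |(mt Γ t).real B - 0| ≤ C * δ ∨ |(mt Γ t).real B - t| ≤ C * δ ∨
      |(mt Γ t).real B - (1 - t)| ≤ C * δ ∨ |(mt Γ t).real B - 1| ≤ C * δ

/-- **ISO** (~150 lines, independent). Isomorphism theorem for standard atomless probability spaces.
Proof: both spaces are uncountable, so by `PolishSpace.measurableEquivOfNotCountable` we may take
`X = ℝ` with an atomless probability `μ`; it suffices to find `e : ℝ ≃ᵐ ℝ` with `μ.map e` =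
Lebesgue measure on `[0,1]` (compose two such).  `F(x) = μ (-∞,x]` is continuous, monotone,
`F_* μ = λ|[0,1]`; the set `D` of `y` whose fibre has more than one point is countable.  Choose an
uncountable Borel null set `C ⊆ (0,1) \ D` (Cantor set minus `D`).  `F` restricts to a Borel
bijection `ℝ \ F⁻¹(C ∪ D ∪ {0,1}) → (0,1) \ (C ∪ D)` with measurable inverse (Lusin-Souslin,
`MeasurableEmbedding`/`Measurable.measurableEmbedding` for injective measurable maps between
standard Borel spaces).  The complements `F⁻¹(C ∪ D ∪ {0,1})` and `ℝ \ ((0,1) \ (C ∪ D))` are null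
and uncountable Borel, hence Borel isomorphic; glue. -/
def P_ISO : Prop := ∀ (X Z : Type) [MeasurableSpace X] [StandardBorelSpace X] [MeasurableSpace Z]
  [StandardBorelSpace Z] (μ : Measure X) (ν : Measure Z) [IsProbabilityMeasure μ]
  [IsProbabilityMeasure ν], (∀ x, μ {x} = 0) → (∀ z, ν {z} = 0) →
  ∃ e : X ≃ᵐ Z, μ.map e = ν

/-- **WC** (~50 lines, independent). Weak containment and masses of almost invariant sets. Proof:
given `F, δ`, take `A` for `b` with `F' = F ∪ {1}`, `δ' = δ/8`; weak containment with `n = 1`,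
`ε = δ/8` gives `B` with `|μ(A) - μ(B)| < ε` (`γ = 1`) and `|μ(γA ∩ A) - μ(γB ∩ B)| < ε`;
`μ(γB ∆ B) = 2 μ(B) - 2 μ(γB ∩ B)` as `μ(γB) = μ(B)`. -/
def P_WC : Prop := ∀ (Γ : Type) [Group Γ] (X : Type) [MeasurableSpace X] (μ : Measure X)
  [IsProbabilityMeasure μ] (a b : PMPAction Γ X μ), WeaklyContained b a → ∀ r, Sp b r → Sp a r

/-- **ACT** (uses `P_SHIFT`, `P_MIX`, `P_ISO`, `P_INF`, ~120 lines). The actions. Proof: `mt Γ t` is
an atomless probability on a standard Borel space; `e : X ≃ᵐ Bool × (Γ → Bool)` from ISO;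
`act γ = e⁻¹ ∘ shift2 γ ∘ e`.  `Sp a t`: the set `e⁻¹ {z | z.1 = true}` is invariant of mass `t`.  If
`Sp a r` then, transporting the sets with `e`, MIX gives `|x - r| ≤ (C+1)δ` for one of the four
values `x` and every `δ`, so `r ∈ {0, t, 1-t, 1}`. -/
def P_ACT : Prop := ∀ (Γ : Type) [Group Γ] [Countable Γ], ¬ Amenable Γ →
  ∀ (X : Type) [MeasurableSpace X] [StandardBorelSpace X] (μ : Measure X)
    [IsProbabilityMeasure μ], (∀ x, μ {x} = 0) → ∀ t : ℝ, 0 < t → t < 1 / 2 →
    ∃ a : PMPAction Γ X μ, IsFree a ∧ Sp a t ∧ ∀ r, Sp a r → r = 0 ∨ r = t ∨ r = 1 - t ∨ r = 1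

open Cardinal in
/-- **CARD** (~60 lines, independent). There are at most continuum many actions. Proof: a measurable
map `f : X → X` is determined by the sets `f⁻¹ (b_n)`, `(b_n)` a countable family generating the
σ-algebra and separating points; there are at most `𝔠` measurable sets
(`MeasurableSpace.cardinal_measurableSet_le_continuum`), so at most `𝔠^ℵ₀ = 𝔠` measurable maps; an
action is a function from the countable set `Γ` to measurable maps. -/
def P_CARD : Prop := ∀ (Γ : Type) [Group Γ] [Countable Γ] (X : Type) [MeasurableSpace X]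
  [StandardBorelSpace X] (μ : Measure X), #(PMPAction Γ X μ) ≤ 𝔠

end Pool.Agent.Run7.h987.SE
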